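import Mathlib

set_option autoImplicit false

namespace Pool.Agent.H485Z.Even

/-- number of ways to pick the two halves of an even tree -/
def P (X Y : ℕ → ℕ) (j : ℕ) : ℕ :=
  if j % 2 = 0 then X (j / 2) * Y (j / 2)
  else X (j / 2 + 1) * Y (j / 2) + X (j / 2) * Y (j / 2 + 1)

lemma P_even (X Y : ℕ → ℕ) (c : ℕ) : P X Y (2 * c) = X c * Y c := by
  unfold P; rw [if_pos (by omega), show 2 * c / 2 = c by omega]

lemma P_odd (X Y : ℕ → ℕ) (c : ℕ) :
    P X Y (2 * c + 1) = X (c + 1) * Y c + X c * Y (c + 1) := by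
  unfold P; rw [if_neg (by omega), show (2 * c + 1) / 2 = c by omega]

lemma P_comm (X Y : ℕ → ℕ) (j : ℕ) : P X Y j = P Y X j := by
  unfold P; split_ifs <;> ring

lemma P_mono {X Y X' Y' : ℕ → ℕ} (h : ∀ i, X i ≤ X' i) (h' : ∀ i, Y i ≤ Y' i) (j : ℕ) :
    P X Y j ≤ P X' Y' j := by
  unfold P; split_ifs
  · exact Nat.mul_le_mul (h _) (h' _)
  · exact Nat.add_le_add (Nat.mul_le_mul (h _) (h' _)) (Nat.mul_le_mul (h _) (h' _))

def star (X Y : ℕ → ℕ) (j : ℕ) : ℕ := X j + Y j + P X Y j

lemma star_comm (X Y : ℕ → ℕ) : star X Y = star Y X := by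
  funext j; unfold star; rw [P_comm]; ring

lemma star_mono {X Y X' Y' : ℕ → ℕ} (h : ∀ i, X i ≤ X' i) (h' : ∀ i, Y i ≤ Y' i) (j : ℕ) :
    star X Y j ≤ star X' Y' j :=
  Nat.add_le_add (Nat.add_le_add (h j) (h' j)) (P_mono h h' j)

lemma even_or_odd' (j : ℕ) : ∃ c, j = 2 * c ∨ j = 2 * c + 1 := ⟨j / 2, by omega⟩

lemma aux1 {b d x y : ℕ} (h : d ≤ b) (h' : y ≤ x) : b * y + d * x ≤ b * x + d * y := by
  obtain ⟨u, rfl⟩ := Nat.exists_eq_add_of_le h
  obtain ⟨v, rfl⟩ := Nat.exists_eq_add_of_le h'
  nlinarith [Nat.zero_le (u * v)]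

/-- the exchange of grandchildren -/
theorem swap (A B C D : ℕ → ℕ) (hA0 : A 0 = 0) (hB0 : B 0 = 0) (hC0 : C 0 = 0) (hD0 : D 0 = 0)
    (hAC : ∀ i, C i ≤ A i) (hBD : ∀ i, D i ≤ B i)
    (tAC : ∀ i j, i ≤ j → A i * C j ≤ A j * C i) (tBD : ∀ i j, i ≤ j → B i * D j ≤ B j * D i)
    (k : ℕ) : star (star A B) (star C D) k ≤ star (star A D) (star B C) k := by
  obtain ⟨a, rfl | rfl⟩ := even_or_odd' k
  · obtain ⟨c, rfl | rfl⟩ := even_or_odd' a
    · simp only [star, P_even]
      have h1 := aux1 (hBD c) (tAC c (2 * c) (by omega))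
      have h2 := aux1 (hAC c) (tBD c (2 * c) (by omega))
      nlinarith
    · simp only [star, P_even, P_odd]
      have h1 := aux1 (hBD c) (tAC (c + 1) (2 * c + 1) (by omega))
      have h2 := aux1 (hAC c) (tBD (c + 1) (2 * c + 1) (by omega))
      have h3 := aux1 (hBD (c + 1)) (tAC c (2 * c + 1) (by omega))
      have h4 := aux1 (hAC (c + 1)) (tBD c (2 * c + 1) (by omega))
      have h5 := aux1 (tAC c (c + 1) (by omega)) (tBD c (c + 1) (by omega))
      nlinarith
  · obtain ⟨c, rfl | rfl⟩ := even_or_odd' a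
    · rcases Nat.eq_zero_or_pos c with rfl | hc
      · simp [star, P, hA0, hB0, hC0, hD0]; omega
      simp only [star, P_even, P_odd]
      have h1 := aux1 (hBD c) (tAC (c + 1) (2 * c) (by omega))
      have h2 := aux1 (hAC c) (tBD (c + 1) (2 * c) (by omega))
      have h3 := aux1 (hBD (c + 1)) (tAC c (2 * c) (by omega))
      have h4 := aux1 (hAC (c + 1)) (tBD c (2 * c) (by omega))
      have h5 := aux1 (hBD c) (tAC c (2 * c + 1) (by omega))
      have h6 := aux1 (hAC c) (tBD c (2 * c + 1) (by omega))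
      nlinarith
    · have e : 2 * c + 1 + 1 = 2 * (c + 1) := by ring
      simp only [star, P_odd]
      simp only [e, P_even]
      have h1 := aux1 (hBD c) (tAC (c + 1) (2 * (c + 1)) (by omega))
      have h2 := aux1 (hAC c) (tBD (c + 1) (2 * (c + 1)) (by omega))
      have h3 := aux1 (hBD (c + 1)) (tAC c (2 * (c + 1)) (by omega))
      have h4 := aux1 (hAC (c + 1)) (tBD c (2 * (c + 1)) (by omega))
      have h5 := aux1 (hBD (c + 1)) (tAC (c + 1) (2 * c + 1) (by omega))
      have h6 := aux1 (hAC (c + 1)) (tBD (c + 1) (2 * c + 1) (by omega))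
      nlinarith

/-- shapes of binary trees, with an empty tree -/
inductive BT : Type
  | nil : BT
  | leaf : BT
  | node : BT → BT → BT

def BT.size : BT → ℕ
  | .nil => 0
  | .leaf => 1
  | .node l r => l.size + r.size

def BT.cnt : BT → ℕ → ℕ
  | .nil => fun _ => 0
  | .leaf => fun j => if j = 1 then 1 else 0
  | .node l r => star l.cnt r.cnt

lemma cnt_zero (T : BT) : T.cnt 0 = 0 := by
  induction T with
  | nil => rfl
  | leaf => rfl
  | node l r hl hr => simp [BT.cnt, star, P, hl, hr]

lemma cnt_big (T : BT) : ∀ j, T.size < j → T.cnt j = 0 := by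
  induction T with
  | nil => intro j _; rfl
  | leaf => intro j hj; simp only [BT.cnt, BT.size] at *; rw [if_neg (by omega)]
  | node l r hl hr =>
    intro j hj
    simp only [BT.size] at hj
    simp only [BT.cnt, star]
    rw [hl j (by omega), hr j (by omega)]
    obtain ⟨c, rfl | rfl⟩ := even_or_odd' j
    · rw [P_even]
      by_cases h : l.size < c
      · rw [hl c h]; simp
      · rw [hr c (by omega)]; simp
    · rw [P_odd]
      by_cases h : l.size < c
      · rw [hl c h, hl (c + 1) (by omega)]; simp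
      · by_cases h' : l.size < c + 1
        · rw [hl (c + 1) h', hr (c + 1) (by omega)]; simp
        · rw [hr c (by omega), hr (c + 1) (by omega)]; simp

def ev : ℕ → BT
  | 0 => .nil
  | 1 => .leaf
  | n + 2 => .node (ev ((n + 3) / 2)) (ev ((n + 2) / 2))
decreasing_by all_goals omega

lemma ev_size (n : ℕ) : (ev n).size = n := by
  induction n using Nat.strong_induction_on with
  | _ n ih =>
  match n with
  | 0 => simp [ev, BT.size]
  | 1 => simp [ev, BT.size]
  | n + 2 =>
    rw [ev, BT.size, ih _ (by omega), ih _ (by omega)]; omega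

/-- `F n j` is the number of copies of the even tree with `j` leaves in the one with `n` leaves -/
def F (n : ℕ) : ℕ → ℕ := (ev n).cnt

lemma F_zero (j : ℕ) : F 0 j = 0 := by simp [F, ev, BT.cnt]

lemma F_one (j : ℕ) : F 1 j = if j = 1 then 1 else 0 := by simp [F, ev, BT.cnt]

lemma F_idx0 (n : ℕ) : F n 0 = 0 := cnt_zero _

lemma F_big {n j : ℕ} (h : n < j) : F n j = 0 := cnt_big _ _ (by rw [ev_size]; exact h)

lemma star_zero (X : ℕ → ℕ) : star X (F 0) = X := by
  funext j; simp [star, P, F_zero]

lemma F_rec (n : ℕ) : F n = star (F ((n + 1) / 2)) (F (n / 2)) := by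
  match n with
  | 0 => simp [star_zero]
  | 1 => simp [star_zero]
  | n + 2 => simp only [F]; rw [ev]; rfl

lemma F_even (p : ℕ) : F (2 * p) = star (F p) (F p) := by
  rw [F_rec, show (2 * p + 1) / 2 = p by omega, show 2 * p / 2 = p by omega]

lemma F_odd (p : ℕ) : F (2 * p + 1) = star (F (p + 1)) (F p) := by
  rw [F_rec, show (2 * p + 1 + 1) / 2 = p + 1 by omega, show (2 * p + 1) / 2 = p by omega]

lemma F_succ_le (n : ℕ) : ∀ j, F n j ≤ F (n + 1) j := by
  induction n using Nat.strong_induction_on with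
  | _ n ih =>
  intro j
  obtain ⟨p, rfl | rfl⟩ := even_or_odd' n
  · rcases Nat.eq_zero_or_pos p with rfl | hp
    · simp [F_zero]
    rw [F_even, F_odd]
    exact star_mono (ih p (by omega)) (fun _ => le_rfl) j
  · rw [show 2 * p + 1 + 1 = 2 * (p + 1) by ring, F_even, F_odd]
    exact star_mono (fun _ => le_rfl) (ih p (by omega)) j

lemma F_mono {m n : ℕ} (h : m ≤ n) (j : ℕ) : F m j ≤ F n j :=
  monotone_nat_of_le_succ (f := fun n => F n j) (fun n => F_succ_le n j) h

lemma F_diag (n : ℕ) : 1 ≤ n → 0 < F n n := by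
  induction n using Nat.strong_induction_on with
  | _ n ih =>
  intro hn
  obtain ⟨p, rfl | rfl⟩ := even_or_odd' n
  · rw [F_even, star, P_even]
    have := ih p (by omega) (by omega)
    positivity
  · rcases Nat.eq_zero_or_pos p with rfl | hp
    · simp [F_one]
    rw [F_odd, star, P_odd]
    have h1 := ih p (by omega) (by omega)
    have h2 := ih (p + 1) (by omega) (by omega)
    positivity

lemma F_pos {n j : ℕ} (h1 : 1 ≤ j) (h : j ≤ n) : 0 < F n j :=
  lt_of_lt_of_le (F_diag j h1) (F_mono h j)

/-- adjacent total positivity at size `n + 1` -/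
def TP (n : ℕ) : Prop := ∀ j, F (n + 1) j * F n (j + 1) ≤ F (n + 1) (j + 1) * F n j

lemma TP.step {n : ℕ} (h : TP n) (i : ℕ) : ∀ j, i ≤ j →
    F (n + 1) i * F n j ≤ F (n + 1) j * F n i := by
  intro j hj
  induction j, hj using Nat.le_induction with
  | base => exact le_rfl
  | succ j hj ih =>
    rcases Nat.eq_zero_or_pos i with rfl | hi
    · simp [F_idx0]
    by_cases hb : n < j + 1
    · rw [F_big hb]; simp
    have hp : 0 < F (n + 1) j := F_pos (by omega) (by omega)
    apply Nat.le_of_mul_le_mul_left _ hp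
    have := h j
    calc F (n + 1) j * (F (n + 1) i * F n (j + 1))
        = F (n + 1) i * (F (n + 1) j * F n (j + 1)) := by ring
      _ ≤ F (n + 1) i * (F (n + 1) (j + 1) * F n j) := Nat.mul_le_mul_left _ this
      _ = F (n + 1) (j + 1) * (F (n + 1) i * F n j) := by ring
      _ ≤ F (n + 1) (j + 1) * (F (n + 1) j * F n i) := Nat.mul_le_mul_left _ ih
      _ = _ := by ring

lemma TP_all {M : ℕ} (h : ∀ n, n < M → TP n) {y : ℕ} (i j : ℕ) (hij : i ≤ j) :
    ∀ x, y ≤ x → x ≤ M → F x i * F y j ≤ F x j * F y i := by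
  intro x hx
  induction x, hx using Nat.le_induction with
  | base => intro _; exact le_of_eq (by ring)
  | succ x hx ih =>
    intro hM
    rcases Nat.eq_zero_or_pos i with rfl | hi
    · simp [F_idx0]
    by_cases hb : y < j
    · rw [F_big hb]; simp
    have hp : 0 < F x j := F_pos (by omega) (by omega)
    apply Nat.le_of_mul_le_mul_left _ hp
    have h1 := (h x (by omega)).step i j hij
    have h2 := ih (by omega)
    calc F x j * (F (x + 1) i * F y j) = (F (x + 1) i * F x j) * F y j := by ring
      _ ≤ (F (x + 1) j * F x i) * F y j := Nat.mul_le_mul_right _ h1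
      _ = F (x + 1) j * (F x i * F y j) := by ring
      _ ≤ F (x + 1) j * (F x j * F y i) := Nat.mul_le_mul_left _ h2
      _ = _ := by ring

lemma split_le {M : ℕ} (h : ∀ n, n < M → TP n) (n : ℕ) : n ≤ 2 * M → ∀ x y, x + y = n →
    ∀ j, star (F x) (F y) j ≤ F n j := by
  induction n using Nat.strong_induction_on with
  | _ n ih =>
  intro hn
  have key : ∀ x y, y ≤ x → x + y = n → ∀ j, star (F x) (F y) j ≤ F n j := by
    intro x y hxy e j
    rcases Nat.eq_zero_or_pos y with rfl | hy
    · rw [star_zero, show x = n by omega]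
    have h1 := swap (F ((x + 1) / 2)) (F (x / 2)) (F ((y + 1) / 2)) (F (y / 2))
      (F_idx0 _) (F_idx0 _) (F_idx0 _) (F_idx0 _) (F_mono (by omega)) (F_mono (by omega))
      (fun i j hij => TP_all h i j hij _ (by omega) (by omega))
      (fun i j hij => TP_all h i j hij _ (by omega) (by omega)) j
    rw [← F_rec, ← F_rec] at h1
    refine h1.trans ?_
    have h2 := star_mono
      (ih ((x + 1) / 2 + y / 2) (by omega) (by omega) _ _ rfl)
      (ih (x / 2 + (y + 1) / 2) (by omega) (by omega) _ _ rfl) j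
    refine h2.trans (le_of_eq ?_)
    rw [F_rec n]
    have : ((x + 1) / 2 + y / 2 = (n + 1) / 2 ∧ x / 2 + (y + 1) / 2 = n / 2) ∨
        ((x + 1) / 2 + y / 2 = n / 2 ∧ x / 2 + (y + 1) / 2 = (n + 1) / 2) := by omega
    rcases this with ⟨e1, e2⟩ | ⟨e1, e2⟩
    · rw [e1, e2]
    · rw [e1, e2, star_comm]
  intro x y e j
  rcases le_total y x with hxy | hxy
  · exact key x y hxy e j
  · rw [star_comm]; exact key y x hxy (by omega) j

lemma cnt_le {M : ℕ} (h : ∀ n, n < M → TP n) (T : BT) : T.size ≤ 2 * M →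
    ∀ j, T.cnt j ≤ F T.size j := by
  induction T with
  | nil => intro _ j; simp [BT.cnt]
  | leaf => intro _ j; simp [BT.cnt, BT.size, F_one]
  | node l r hl hr =>
    intro hs j
    simp only [BT.size] at hs
    exact (star_mono (hl (by omega)) (hr (by omega)) j).trans (split_le h _ hs _ _ rfl j)

/-- the trees obtained by deleting one leaf -/
def del : BT → List BT
  | .nil => []
  | .leaf => [.nil]
  | .node l r => (del l).map (fun l' => .node l' r) ++ (del r).map (fun r' => .node l r')

lemma del_length (T : BT) : (del T).length = T.size := by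
  induction T with
  | nil => rfl
  | leaf => rfl
  | node l r hl hr => simp [del, BT.size, hl, hr]

lemma del_size (T : BT) : ∀ T' ∈ del T, T'.size + 1 = T.size := by
  induction T with
  | nil => simp [del]
  | leaf => simp [del, BT.size]
  | node l r hl hr =>
    intro T' h
    simp only [del, List.mem_append, List.mem_map] at h
    rcases h with ⟨l', h, rfl⟩ | ⟨r', h, rfl⟩
    · have := hl l' h; simp only [BT.size]; omega
    · have := hr r' h; simp only [BT.size]; omega

lemma sum_star (L : List BT) (Y : ℕ → ℕ) (j : ℕ) :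
    (L.map (fun l => star l.cnt Y j)).sum =
      (L.map (fun l => l.cnt j)).sum + L.length * Y j +
        P (fun i => (L.map (fun l => l.cnt i)).sum) Y j := by
  induction L with
  | nil => simp [P]
  | cons a L ih =>
    simp only [List.map_cons, List.sum_cons, List.length_cons]
    rw [ih]
    simp only [star]
    unfold P
    split_ifs <;> ring

lemma del_sum (T : BT) : ∀ j, ((del T).map (fun l => l.cnt j)).sum + j * T.cnt j =
    T.size * T.cnt j := by
  induction T with
  | nil => intro j; simp [del, BT.cnt]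
  | leaf => intro j; simp [del, BT.cnt, BT.size]; split_ifs with h <;> simp [h]
  | node l r hl hr =>
    intro j
    simp only [del, List.map_append, List.map_map, List.sum_append, Function.comp_def, BT.cnt,
      BT.size]
    have e : (fun r' : BT => star l.cnt r'.cnt j) = fun r' : BT => star r'.cnt l.cnt j := by
      funext r'; rw [star_comm]
    rw [e, sum_star, sum_star, del_length, del_length]
    have a1 := hl j
    have a2 := hr j
    obtain ⟨c, rfl | rfl⟩ := even_or_odd' j
    · simp only [star, P_even]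
      have b1 := congrArg (· * r.cnt c) (hl c)
      have b2 := congrArg (· * l.cnt c) (hr c)
      nlinarith
    · simp only [star, P_odd]
      have b1 := congrArg (· * r.cnt (c + 1)) (hl c)
      have b2 := congrArg (· * l.cnt (c + 1)) (hr c)
      have b3 := congrArg (· * r.cnt c) (hl (c + 1))
      have b4 := congrArg (· * l.cnt c) (hr (c + 1))
      nlinarith

lemma avg {M : ℕ} (h : ∀ n, n < M → TP n) {n : ℕ} (hn : n ≤ 2 * M) (j : ℕ) :
    (n + 1) * F (n + 1) j ≤ (n + 1) * F n j + j * F (n + 1) j := by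
  have h1 := del_sum (ev (n + 1)) j
  rw [ev_size] at h1
  have h2 : ((del (ev (n + 1))).map (fun l => l.cnt j)).sum ≤
      ((del (ev (n + 1))).map (fun l => l.cnt j)).length • F n j := by
    apply List.sum_le_card_nsmul
    intro x hx
    obtain ⟨T, hT, rfl⟩ := List.mem_map.1 hx
    have e := del_size _ T hT
    rw [ev_size] at e
    have := cnt_le h T (by omega) j
    rwa [show T.size = n by omega] at this
  rw [List.length_map, del_length, ev_size, smul_eq_mul] at h2
  change _ + j * F (n + 1) j = (n + 1) * F (n + 1) j at h1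
  omega

/-- replace every leaf by a cherry -/
def bl : BT → BT
  | .nil => .nil
  | .leaf => .node .leaf .leaf
  | .node l r => .node (bl l) (bl r)

lemma bl_size (T : BT) : (bl T).size = 2 * T.size := by
  induction T with
  | nil => rfl
  | leaf => rfl
  | node l r hl hr => simp only [bl, BT.size, hl, hr]; ring

lemma bl_cnt (T : BT) : ∀ j, 2 ^ j * T.cnt j ≤ (bl T).cnt j := by
  induction T with
  | nil => intro j; simp [BT.cnt]
  | leaf =>
    intro j
    simp only [BT.cnt, bl, star]
    split_ifs with h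
    · subst h; simp
    · simp
  | node l r hl hr =>
    intro j
    have h1 := star_mono hl hr j
    refine le_trans (le_of_eq ?_) h1
    simp only [BT.cnt, star]
    obtain ⟨c, rfl | rfl⟩ := even_or_odd' j
    · simp only [P_even]; ring
    · simp only [P_odd]; ring

lemma double {M : ℕ} (h : ∀ n, n < M → TP n) {p : ℕ} (hp : p ≤ M) (j : ℕ) :
    2 ^ j * F p j ≤ F (2 * p) j := by
  have h1 := bl_cnt (ev p) j
  have h2 := cnt_le h (bl (ev p)) (by rw [bl_size, ev_size]; omega) j
  rw [bl_size, ev_size] at h2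
  exact h1.trans h2

end Pool.Agent.H485Z.Even
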