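import Pool.Agent.H485Z.Even.TP

set_option autoImplicit false

namespace Pool.Agent.H485Z.Even

open Finset

/-- binary trees with labelled leaves -/
inductive LT (α : Type) : Type
  | leaf : α → LT α
  | node : LT α → LT α → LT α

variable {α β : Type} [DecidableEq α] [DecidableEq β]

def LT.supp : LT α → Finset α
  | .leaf x => {x}
  | .node l r => l.supp ∪ r.supp

def LT.fam : LT α → Finset (Finset α)
  | .leaf x => {{x}}
  | .node l r => insert (l.supp ∪ r.supp) (l.fam ∪ r.fam)

def LT.WF : LT α → Prop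
  | .leaf _ => True
  | .node l r => l.WF ∧ r.WF ∧ Disjoint l.supp r.supp

def LT.Bal : LT α → Prop
  | .leaf _ => True
  | .node l r => l.Bal ∧ r.Bal ∧ l.supp.card ≤ r.supp.card + 1 ∧ r.supp.card ≤ l.supp.card + 1

def LT.shape : LT α → BT
  | .leaf _ => .leaf
  | .node l r => .node l.shape r.shape

def LT.map (f : β → α) : LT β → LT α
  | .leaf x => .leaf (f x)
  | .node l r => .node (l.map f) (r.map f)

lemma supp_ne (t : LT α) : t.supp.Nonempty := by
  induction t with
  | leaf x => simp [LT.supp]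
  | node l r hl _ => exact hl.mono subset_union_left

lemma supp_mem (t : LT α) : t.supp ∈ t.fam := by
  cases t <;> simp [LT.supp, LT.fam]

lemma fam_sub (t : LT α) : ∀ A ∈ t.fam, A.Nonempty ∧ A ⊆ t.supp := by
  induction t with
  | leaf x => simp [LT.supp, LT.fam]
  | node l r hl hr =>
    intro A hA
    simp only [LT.fam, mem_insert, mem_union] at hA
    rcases hA with rfl | hA | hA
    · exact ⟨(supp_ne l).mono subset_union_left, subset_rfl⟩
    · exact ⟨(hl A hA).1, (hl A hA).2.trans subset_union_left⟩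
    · exact ⟨(hr A hA).1, (hr A hA).2.trans subset_union_right⟩

lemma shape_size (t : LT α) : t.WF → t.shape.size = t.supp.card := by
  induction t with
  | leaf x => simp [LT.supp, LT.shape, BT.size]
  | node l r hl hr =>
    rintro ⟨h1, h2, h3⟩
    simp only [LT.shape, BT.size, LT.supp, card_union_of_disjoint h3, hl h1, hr h2]

lemma bal_cnt (t : LT α) : t.WF → t.Bal → t.shape.cnt = F t.supp.card := by
  induction t with
  | leaf x => intro _ _; funext j; simp [LT.supp, LT.shape, BT.cnt, F_one]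
  | node l r hl hr =>
    rintro ⟨h1, h2, h3⟩ ⟨b1, b2, b3, b4⟩
    simp only [LT.shape, BT.cnt, LT.supp, card_union_of_disjoint h3, hl h1 b1, hr h2 b2]
    rw [F_rec (l.supp.card + r.supp.card)]
    rcases le_total l.supp.card r.supp.card with h | h
    · rw [star_comm]; congr 2 <;> omega
    · congr 2 <;> omega

lemma exists_tree (T : Finset (Finset α)) (h1 : ∀ A ∈ T, A.Nonempty)
    (h2 : ∀ A ∈ T, ∀ B ∈ T, A ⊆ B ∨ B ⊆ A ∨ Disjoint A B)
    (h3 : ∀ A ∈ T, 2 ≤ A.card → ∃ B ∈ T, ∃ D ∈ T, Disjoint B D ∧ B ∪ D = A) (m : ℕ) :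
    ∀ A ∈ T, A.card = m → ∃ t : LT α, t.WF ∧ t.supp = A ∧ (∀ B, B ∈ t.fam ↔ B ∈ T ∧ B ⊆ A) ∧
      ((∀ A ∈ T, ∀ B ∈ T, B ⊂ A → (∀ D ∈ T, B ⊆ D → D ⊆ A → D = B ∨ D = A) →
          A.card ≤ 2 * B.card + 1 ∧ 2 * B.card ≤ A.card + 1) → t.Bal) := by
  induction m using Nat.strong_induction_on with
  | _ m ih =>
  intro A hA hm
  by_cases hc : 2 ≤ A.card
  · obtain ⟨B, hB, D, hD, hd, rfl⟩ := h3 A hA hc
    have hcard := card_union_of_disjoint hd
    have pB := (h1 B hB).card_pos
    have pD := (h1 D hD).card_pos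
    obtain ⟨tB, wB, sB, fB, bB⟩ := ih B.card (by omega) B hB rfl
    obtain ⟨tD, wD, sD, fD, bD⟩ := ih D.card (by omega) D hD rfl
    have tri : ∀ C ∈ T, C ⊆ B ∪ D → C = B ∪ D ∨ C ⊆ B ∨ C ⊆ D := by
      intro C hC hs
      rcases h2 C hC B hB with h | h | h
      · exact Or.inr (Or.inl h)
      · rcases h2 C hC D hD with h' | h' | h'
        · exact Or.inr (Or.inr h')
        · exact Or.inl (Subset.antisymm hs (union_subset h h'))
        · refine Or.inr (Or.inl fun x hx => ?_)
          rcases mem_union.1 (hs hx) with e | e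
          · exact e
          · exact absurd e (disjoint_left.1 h' hx)
      · refine Or.inr (Or.inr fun x hx => ?_)
        rcases mem_union.1 (hs hx) with e | e
        · exact absurd e (disjoint_left.1 h hx)
        · exact e
    refine ⟨.node tB tD, ⟨wB, wD, by rwa [sB, sD]⟩, by simp [LT.supp, sB, sD], fun C => ?_,
      fun hb => ⟨bB hb, bD hb, ?_⟩⟩
    · simp only [LT.fam, mem_insert, mem_union, fB, fD, sB, sD]
      constructor
      · rintro (rfl | ⟨h, h'⟩ | ⟨h, h'⟩)
        · exact ⟨hA, subset_rfl⟩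
        · exact ⟨h, h'.trans subset_union_left⟩
        · exact ⟨h, h'.trans subset_union_right⟩
      · rintro ⟨h, h'⟩
        rcases tri C h h' with e | e | e
        · exact Or.inl e
        · exact Or.inr (Or.inl ⟨h, e⟩)
        · exact Or.inr (Or.inr ⟨h, e⟩)
    · have := hb _ hA B hB (Finset.ssubset_iff_subset_ne.2 ⟨subset_union_left, fun e => by
        have := congrArg card e; omega⟩) (fun C hC hBC hs => by
          rcases tri C hC hs with e | e | e
          · exact Or.inr e
          · exact Or.inl (Subset.antisymm e hBC)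
          · obtain ⟨x, hx⟩ := h1 B hB
            exact absurd (e (hBC hx)) (disjoint_left.1 hd hx))
      rw [sB, sD]; omega
  · have := (h1 A hA).card_pos
    obtain ⟨x, rfl⟩ := card_eq_one.1 (show A.card = 1 by omega)
    refine ⟨.leaf x, trivial, rfl, fun B => ?_, fun _ => trivial⟩
    simp only [LT.fam, mem_singleton]
    constructor
    · rintro rfl; exact ⟨hA, subset_rfl⟩
    · rintro ⟨h, h'⟩
      exact (h1 B h).subset_singleton_iff.1 h'

lemma map_supp (f : β → α) (s : LT β) : (s.map f).supp = s.supp.image f := by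
  induction s with
  | leaf x => simp [LT.map, LT.supp]
  | node l r hl hr => simp [LT.map, LT.supp, hl, hr, image_union]

lemma map_fam (f : β → α) (s : LT β) : (s.map f).fam = s.fam.image (image f) := by
  induction s with
  | leaf x => simp [LT.map, LT.fam]
  | node l r hl hr => simp [LT.map, LT.fam, hl, hr, image_union, map_supp]

lemma map_wf {f : β → α} (hf : Function.Injective f) (s : LT β) : s.WF → (s.map f).WF := by
  induction s with
  | leaf x => intro _; trivial
  | node l r hl hr =>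
    rintro ⟨h1, h2, h3⟩
    exact ⟨hl h1, hr h2, by rw [map_supp, map_supp]; exact (disjoint_image hf).2 h3⟩

lemma map_bal {f : β → α} (hf : Function.Injective f) (s : LT β) : s.Bal → (s.map f).Bal := by
  induction s with
  | leaf x => intro _; trivial
  | node l r hl hr =>
    rintro ⟨h1, h2, h3⟩
    exact ⟨hl h1, hr h2, by
      rw [map_supp, map_supp, card_image_of_injective _ hf, card_image_of_injective _ hf]
      exact h3⟩

/-- isomorphism of labelled trees -/
def Iso (s : LT β) (u : LT α) : Prop :=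
  ∃ f : β → α, Set.InjOn f s.supp ∧ u.supp = s.supp.image f ∧ u.fam = s.fam.image (image f)

lemma iso_node {s1 s2 : LT β} {u1 u2 : LT α} (hs : Disjoint s1.supp s2.supp)
    (hu : Disjoint u1.supp u2.supp) (h1 : Iso s1 u1) (h2 : Iso s2 u2) :
    Iso (.node s1 s2) (.node u1 u2) := by
  obtain ⟨f1, i1, e1, g1⟩ := h1
  obtain ⟨f2, i2, e2, g2⟩ := h2
  let f : β → α := fun x => if x ∈ s1.supp then f1 x else f2 x
  have a1 : ∀ x ∈ s1.supp, f x = f1 x := fun x hx => if_pos hx
  have a2 : ∀ x ∈ s2.supp, f x = f2 x := fun x hx => if_neg (disjoint_right.1 hs hx)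
  have b1 : ∀ B, B ⊆ s1.supp → B.image f = B.image f1 := fun B hB =>
    image_congr (fun x hx => a1 x (hB hx))
  have b2 : ∀ B, B ⊆ s2.supp → B.image f = B.image f2 := fun B hB =>
    image_congr (fun x hx => a2 x (hB hx))
  have c1 : s1.fam.image (image f) = s1.fam.image (image f1) :=
    image_congr (fun B hB => b1 B (fam_sub _ B hB).2)
  have c2 : s2.fam.image (image f) = s2.fam.image (image f2) :=
    image_congr (fun B hB => b2 B (fam_sub _ B hB).2)
  have m1 : ∀ x ∈ s1.supp, f1 x ∈ u1.supp := fun x hx => e1 ▸ mem_image_of_mem _ hx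
  have m2 : ∀ x ∈ s2.supp, f2 x ∈ u2.supp := fun x hx => e2 ▸ mem_image_of_mem _ hx
  refine ⟨f, ?_, ?_, ?_⟩
  · intro x hx y hy hxy
    simp only [LT.supp, coe_union, Set.mem_union, mem_coe] at hx hy
    rcases hx with hx | hx <;> rcases hy with hy | hy
    · rw [a1 x hx, a1 y hy] at hxy; exact i1 hx hy hxy
    · rw [a1 x hx, a2 y hy] at hxy
      exact absurd (hxy ▸ m1 x hx) (disjoint_right.1 hu (m2 y hy))
    · rw [a2 x hx, a1 y hy] at hxy
      exact absurd (hxy ▸ m2 x hx) (disjoint_left.1 hu (m1 y hy))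
    · rw [a2 x hx, a2 y hy] at hxy; exact i2 hx hy hxy
  · simp only [LT.supp, image_union, b1 _ subset_rfl, b2 _ subset_rfl, e1, e2]
  · simp only [LT.fam, image_insert, image_union, b1 _ subset_rfl, b2 _ subset_rfl, c1, c2,
      e1, e2, g1, g2]

lemma supp_comm (l r : LT α) : (LT.node l r).supp = (LT.node r l).supp := union_comm _ _

lemma fam_comm (l r : LT α) : (LT.node l r).fam = (LT.node r l).fam := by
  simp only [LT.fam]; rw [union_comm l.supp, union_comm l.fam]

lemma iso_of_bal (s : LT β) : ∀ u : LT α, s.WF → s.Bal → u.WF → u.Bal →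
    s.supp.card = u.supp.card → Iso s u := by
  induction s with
  | leaf x =>
    intro u _ _ hw _ hc
    cases u with
    | leaf y => exact ⟨fun _ => y, by simp [LT.supp], by simp [LT.supp], by simp [LT.fam]⟩
    | node u1 u2 =>
      have := (supp_ne u1).card_pos
      have := (supp_ne u2).card_pos
      simp only [LT.supp, card_union_of_disjoint hw.2.2, card_singleton] at hc
      omega
  | node s1 s2 ih1 ih2 =>
    rintro u ⟨w1, w2, w3⟩ ⟨b1, b2, b3, b4⟩ hw hb hc
    cases u with
    | leaf y =>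
      have := (supp_ne s1).card_pos
      have := (supp_ne s2).card_pos
      simp only [LT.supp, card_union_of_disjoint w3, card_singleton] at hc
      omega
    | node u1 u2 =>
      obtain ⟨v1, v2, v3⟩ := hw
      obtain ⟨c1, c2, c3, c4⟩ := hb
      simp only [LT.supp, card_union_of_disjoint w3, card_union_of_disjoint v3] at hc
      by_cases h : s1.supp.card = u1.supp.card
      · exact iso_node w3 v3 (ih1 u1 w1 b1 v1 c1 h) (ih2 u2 w2 b2 v2 c2 (by omega))
      · have := iso_node w3 v3.symm (ih1 u2 w1 b1 v2 c2 (by omega))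
          (ih2 u1 w2 b2 v1 c1 (by omega))
        unfold Iso at this ⊢
        rwa [supp_comm u1, fam_comm u1]

def U (X Y : Finset (Finset α)) : Finset (Finset α) := image₂ (· ∪ ·) X Y

def PU (X Y : ℕ → Finset (Finset α)) (j : ℕ) : Finset (Finset α) :=
  if j % 2 = 0 then U (X (j / 2)) (Y (j / 2))
  else U (X (j / 2 + 1)) (Y (j / 2)) ∪ U (X (j / 2)) (Y (j / 2 + 1))

lemma mem_PU {X Y : ℕ → Finset (Finset α)} {j : ℕ} {L : Finset α} : L ∈ PU X Y j ↔
    ∃ a b, a + b = j ∧ a ≤ b + 1 ∧ b ≤ a + 1 ∧ ∃ A ∈ X a, ∃ B ∈ Y b, A ∪ B = L := by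
  unfold PU
  split_ifs with h
  · simp only [U, mem_image₂]
    constructor
    · intro h'; exact ⟨j / 2, j / 2, by omega, by omega, by omega, h'⟩
    · rintro ⟨a, b, h1, h2, h3, h'⟩
      rwa [show j / 2 = a by omega, show X a = X a from rfl, show Y a = Y b by congr 1; omega]
  · simp only [U, mem_union, mem_image₂]
    constructor
    · rintro (h' | h')
      · exact ⟨j / 2 + 1, j / 2, by omega, by omega, by omega, h'⟩
      · exact ⟨j / 2, j / 2 + 1, by omega, by omega, by omega, h'⟩
    · rintro ⟨a, b, h1, h2, h3, h'⟩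
      by_cases hab : a ≤ b
      · right; rwa [show j / 2 + 1 = b by omega, show j / 2 = a by omega]
      · left; rwa [show j / 2 + 1 = a by omega, show j / 2 = b by omega]

/-- leaf sets of size `k` inducing an even tree -/
def evk : LT α → ℕ → Finset (Finset α)
  | .leaf x => fun k => if k = 1 then {{x}} else ∅
  | .node l r => fun k => evk l k ∪ evk r k ∪ PU (evk l) (evk r) k

lemma evk_sub (t : LT α) : t.WF → ∀ k, ∀ L ∈ evk t k, L.Nonempty ∧ L ⊆ t.supp ∧ L.card = k := by
  induction t with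
  | leaf x =>
    intro _ k L hL
    simp only [evk] at hL
    split_ifs at hL with h
    · rw [mem_singleton] at hL; subst hL h; simp [LT.supp]
    · simp at hL
  | node l r hl hr =>
    rintro ⟨w1, w2, w3⟩ k L hL
    simp only [evk, mem_union, mem_PU] at hL
    rcases hL with (h | h) | ⟨a, b, rfl, -, -, A, hA, B, hB, rfl⟩
    · obtain ⟨x, y, z⟩ := hl w1 k L h
      exact ⟨x, y.trans subset_union_left, z⟩
    · obtain ⟨x, y, z⟩ := hr w2 k L h
      exact ⟨x, y.trans subset_union_right, z⟩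
    · obtain ⟨x, y, z⟩ := hl w1 a A hA
      obtain ⟨x', y', z'⟩ := hr w2 b B hB
      exact ⟨x.mono subset_union_left, union_subset_union y y',
        by rw [card_union_of_disjoint (w3.mono y y'), z, z']⟩

lemma union_inter_l {A B S S' : Finset α} (h : Disjoint S S') (hA : A ⊆ S) (hB : B ⊆ S') :
    (A ∪ B) ∩ S = A := by
  ext x
  simp only [mem_inter, mem_union]
  exact ⟨fun ⟨h1, h2⟩ => h1.resolve_right fun e => disjoint_left.1 h h2 (hB e),
    fun h1 => ⟨Or.inl h1, hA h1⟩⟩

lemma card_U {X Y : Finset (Finset α)} {S S' : Finset α} (h : Disjoint S S')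
    (hX : ∀ A ∈ X, A ⊆ S) (hY : ∀ A ∈ Y, A ⊆ S') : (U X Y).card = X.card * Y.card := by
  unfold U
  rw [card_image₂_iff]
  rintro ⟨A, B⟩ ⟨hA, hB⟩ ⟨A', B'⟩ ⟨hA', hB'⟩ e
  simp only at e hA hB hA' hB'
  have e1 := union_inter_l h (hX A hA) (hY B hB)
  have e2 := union_inter_l h (hX A' hA') (hY B' hB')
  have e3 := union_inter_l h.symm (hY B hB) (hX A hA)
  have e4 := union_inter_l h.symm (hY B' hB') (hX A' hA')
  rw [union_comm] at e3 e4
  rw [e] at e1 e3
  exact Prod.ext (e1.symm.trans e2) (e3.symm.trans e4)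

lemma card_evk (t : LT α) : t.WF → ∀ k, (evk t k).card = t.shape.cnt k := by
  induction t with
  | leaf x => intro _ k; simp only [evk, LT.shape, BT.cnt]; split_ifs <;> simp
  | node l r hl hr =>
    rintro ⟨w1, w2, w3⟩ k
    have sl := evk_sub l w1
    have sr := evk_sub r w2
    simp only [evk, LT.shape, BT.cnt, star]
    have d1 : Disjoint (evk l k) (evk r k) := by
      rw [disjoint_left]
      intro L h1 h2
      obtain ⟨x, hx⟩ := (sl k L h1).1
      exact disjoint_left.1 w3 ((sl k L h1).2.1 hx) ((sr k L h2).2.1 hx)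
    have d2 : Disjoint (evk l k ∪ evk r k) (PU (evk l) (evk r) k) := by
      rw [disjoint_left]
      intro L h1 h2
      obtain ⟨a, b, -, -, -, A, hA, B, hB, rfl⟩ := mem_PU.1 h2
      rcases mem_union.1 h1 with h1 | h1
      · obtain ⟨x, hx⟩ := (sr b B hB).1
        exact disjoint_left.1 w3 ((sl k _ h1).2.1 (mem_union_right _ hx)) ((sr b B hB).2.1 hx)
      · obtain ⟨x, hx⟩ := (sl a A hA).1
        exact disjoint_left.1 w3 ((sl a A hA).2.1 hx) ((sr k _ h1).2.1 (mem_union_left _ hx))
    rw [card_union_of_disjoint d2, card_union_of_disjoint d1, hl w1, hr w2]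
    congr 1
    have cu : ∀ a b, (U (evk l a) (evk r b)).card = l.shape.cnt a * r.shape.cnt b := fun a b => by
      rw [card_U w3 (fun A hA => (sl a A hA).2.1) (fun A hA => (sr b A hA).2.1), hl w1, hr w2]
    unfold PU P
    split_ifs with h
    · exact cu _ _
    · rw [card_union_of_disjoint, cu, cu]
      rw [disjoint_left]
      intro L h1 h2
      obtain ⟨A, hA, B, hB, rfl⟩ := mem_image₂.1 h1
      obtain ⟨A', hA', B', hB', e⟩ := mem_image₂.1 h2
      have e1 := union_inter_l w3 (sl _ A hA).2.1 (sr _ B hB).2.1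
      have e2 := union_inter_l w3 (sl _ A' hA').2.1 (sr _ B' hB').2.1
      rw [e, e1] at e2
      have c1 := (sl _ A hA).2.2
      have c2 := (sl _ A' hA').2.2
      rw [e2] at c1
      omega

/-- membership in the family induced on `L` -/
def I (t : LT α) (L B : Finset α) : Prop := B.Nonempty ∧ ∃ A ∈ t.fam, B = A ∩ L

lemma I_comm (l r : LT α) (L B : Finset α) : I (.node l r) L B ↔ I (.node r l) L B := by
  unfold I; rw [fam_comm]

lemma I_sub {t : LT α} {L B : Finset α} (h : I t L B) : B ⊆ t.supp ∧ B ⊆ L := by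
  obtain ⟨-, A, hA, rfl⟩ := h
  exact ⟨inter_subset_left.trans (fam_sub t A hA).2, inter_subset_right⟩

lemma I_inter (t : LT α) (L B : Finset α) : I t (L ∩ t.supp) B ↔ I t L B := by
  unfold I
  refine and_congr_right fun _ => exists_congr fun A => and_congr_right fun hA => ?_
  rw [inter_comm L, ← inter_assoc, inter_eq_left.2 (fam_sub t A hA).2]

lemma I_res {l r : LT α} (h : Disjoint l.supp r.supp) (L B : Finset α) :
    I l L B ↔ I (.node l r) L B ∧ B ⊆ l.supp := by
  constructor
  · intro hI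
    refine ⟨?_, (I_sub hI).1⟩
    obtain ⟨h1, A, hA, e⟩ := hI
    exact ⟨h1, A, by simp [LT.fam, hA], e⟩
  · rintro ⟨⟨h1, A, hA, e⟩, hs⟩
    simp only [LT.fam, mem_insert, mem_union] at hA
    rcases hA with rfl | hA | hA
    · refine ⟨h1, l.supp, supp_mem l, Subset.antisymm (subset_inter hs ?_) ?_⟩
      · rw [e]; exact inter_subset_right
      · rw [e]; exact inter_subset_inter_right subset_union_left
    · exact ⟨h1, A, hA, e⟩
    · obtain ⟨x, hx⟩ := h1
      exact absurd ((fam_sub r A hA).2 (mem_inter.1 (e ▸ hx)).1) (disjoint_left.1 h (hs hx))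

lemma I_node (l r : LT α) (L B : Finset α) : I (.node l r) L B ↔
    (B.Nonempty ∧ B = (l.supp ∪ r.supp) ∩ L) ∨ I l L B ∨ I r L B := by
  simp only [I, LT.fam, mem_insert, mem_union]
  constructor
  · rintro ⟨h1, A, rfl | hA | hA, e⟩
    · exact Or.inl ⟨h1, e⟩
    · exact Or.inr (Or.inl ⟨h1, A, hA, e⟩)
    · exact Or.inr (Or.inr ⟨h1, A, hA, e⟩)
  · rintro (⟨h1, e⟩ | ⟨h1, A, hA, e⟩ | ⟨h1, A, hA, e⟩)
    · exact ⟨h1, _, Or.inl rfl, e⟩
    · exact ⟨h1, A, Or.inr (Or.inl hA), e⟩
    · exact ⟨h1, A, Or.inr (Or.inr hA), e⟩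

lemma fam_res {l r : LT α} (h : Disjoint l.supp r.supp) (B : Finset α) :
    B ∈ l.fam ↔ B ∈ (LT.node l r).fam ∧ B ⊆ l.supp := by
  simp only [LT.fam, mem_insert, mem_union]
  constructor
  · intro hB; exact ⟨Or.inr (Or.inl hB), (fam_sub l B hB).2⟩
  · rintro ⟨rfl | hB | hB, hs⟩
    · obtain ⟨x, hx⟩ := supp_ne r
      exact absurd hx (disjoint_left.1 h (hs (mem_union_right _ hx)))
    · exact hB
    · obtain ⟨⟨x, hx⟩, h2⟩ := fam_sub r B hB
      exact absurd (h2 hx) (disjoint_left.1 h (hs hx))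

/-- `L` induces an even tree in `t` -/
def Good (t : LT α) (L : Finset α) : Prop :=
  ∃ u : LT α, u.WF ∧ u.Bal ∧ u.supp = L ∧ ∀ B, B ∈ u.fam ↔ I t L B

lemma Good.comm {l r : LT α} {L : Finset α} (h : Good (.node l r) L) : Good (.node r l) L := by
  obtain ⟨u, h1, h2, h3, h4⟩ := h
  exact ⟨u, h1, h2, h3, fun B => (h4 B).trans (I_comm _ _ _ _)⟩

lemma good_left {l r : LT α} (h : Disjoint l.supp r.supp) {L : Finset α} (hL : L ⊆ l.supp) :
    Good l L ↔ Good (.node l r) L := by
  have : ∀ B, I l L B ↔ I (.node l r) L B := fun B => by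
    rw [I_res h]; exact ⟨fun h => h.1, fun h => ⟨h, (I_sub h).2.trans hL⟩⟩
  simp only [Good, this]

lemma good_part {l r u1 u2 : LT α} (h : Disjoint l.supp r.supp) (h' : Disjoint u1.supp u2.supp)
    {L : Finset α} (hI : ∀ B, B ∈ (LT.node u1 u2).fam ↔ I (.node l r) L B)
    (e : u1.supp = L ∩ l.supp) (w : u1.WF) (b : u1.Bal) : Good l u1.supp := by
  refine ⟨u1, w, b, rfl, fun B => ?_⟩
  rw [fam_res h', hI, e, I_inter, I_res h]
  exact and_congr_right fun hB => ⟨fun hs => hs.trans inter_subset_right,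
    fun hs => subset_inter (I_sub hB).2 hs⟩

lemma good_sub {t : LT α} {L : Finset α} (h : Good t L) : L.Nonempty ∧ L ⊆ t.supp := by
  obtain ⟨u, -, -, h3, h4⟩ := h
  exact ⟨h3 ▸ supp_ne u, h3 ▸ (I_sub ((h4 _).1 (supp_mem u))).1⟩

lemma mem_evk (t : LT α) : t.WF → ∀ k L, L ∈ evk t k ↔ Good t L ∧ L.card = k := by
  induction t with
  | leaf x =>
    intro _ k L
    simp only [evk]
    constructor
    · intro hL
      split_ifs at hL with h
      · rw [mem_singleton] at hL; subst hL h
        refine ⟨⟨.leaf x, trivial, trivial, rfl, fun B => ?_⟩, by simp⟩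
        simp only [I, LT.fam, mem_singleton, exists_eq_left, inter_self]
        exact ⟨fun e => ⟨by simp [e], e⟩, fun e => e.2⟩
      · simp at hL
    · rintro ⟨hg, rfl⟩
      obtain ⟨h1, h2⟩ := good_sub hg
      obtain rfl := h1.subset_singleton_iff.1 h2
      simp
  | node l r hl hr =>
    rintro ⟨w1, w2, w3⟩ k L
    have hl := hl w1
    have hr := hr w2
    simp only [evk, mem_union, mem_PU, hl, hr]
    constructor
    · rintro ((⟨h, hc⟩ | ⟨h, hc⟩) | ⟨a, b, rfl, h1, h2, A, ⟨hA, rfl⟩, B, ⟨hB, rfl⟩, rfl⟩)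
      · exact ⟨(good_left w3 (good_sub h).2).1 h, hc⟩
      · exact ⟨((good_left w3.symm (good_sub h).2).1 h).comm, hc⟩
      · have sA := good_sub hA
        have sB := good_sub hB
        have hd : Disjoint A B := w3.mono sA.2 sB.2
        refine ⟨?_, card_union_of_disjoint hd⟩
        obtain ⟨u1, a1, a2, rfl, a4⟩ := hA
        obtain ⟨u2, b1, b2, rfl, b4⟩ := hB
        refine ⟨.node u1 u2, ⟨a1, b1, hd⟩, ⟨a2, b2, h1, h2⟩, rfl, fun C => ?_⟩
        rw [I_node, ← I_inter l, ← I_inter r, union_inter_l w3 sA.2 sB.2, union_comm u1.supp,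
          union_inter_l w3.symm sB.2 sA.2, ← a4, ← b4, union_comm u2.supp,
          inter_eq_right.2 (union_subset_union sA.2 sB.2)]
        simp only [LT.fam, mem_insert, mem_union]
        refine or_congr_left ⟨fun e => ⟨?_, e⟩, fun e => e.2⟩
        rw [e]; exact sA.1.mono subset_union_left
    · rintro ⟨hg, rfl⟩
      obtain ⟨hne, hs⟩ := good_sub hg
      by_cases c1 : L ⊆ l.supp
      · exact Or.inl (Or.inl ⟨(good_left w3 c1).2 hg, rfl⟩)
      by_cases c2 : L ⊆ r.supp
      · exact Or.inl (Or.inr ⟨(good_left w3.symm c2).2 hg.comm, rfl⟩)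
      right
      obtain ⟨x, hx, hxl⟩ := not_subset.1 c1
      obtain ⟨y, hy, hyr⟩ := not_subset.1 c2
      have hxr : x ∈ r.supp := (mem_union.1 (hs hx)).resolve_left hxl
      have hyl : y ∈ l.supp := (mem_union.1 (hs hy)).resolve_right hyr
      obtain ⟨u, uw, ub, rfl, hI⟩ := hg
      cases u with
      | leaf z =>
        simp only [LT.supp, mem_singleton] at hx hy
        subst hx hy
        exact absurd hxr hyr
      | node u1 u2 =>
        obtain ⟨v1, v2, v3⟩ := uw
        obtain ⟨b1, b2, b3, b4⟩ := ub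
        set L := (LT.node u1 u2).supp with hL
        have hL' : L = u1.supp ∪ u2.supp := rfl
        have m1 : L ∩ l.supp ∈ (LT.node u1 u2).fam :=
          (hI _).2 ⟨⟨y, mem_inter.2 ⟨hy, hyl⟩⟩, l.supp, by simp [LT.fam, supp_mem], inter_comm _ _⟩
        have m2 : L ∩ r.supp ∈ (LT.node u1 u2).fam :=
          (hI _).2 ⟨⟨x, mem_inter.2 ⟨hx, hxr⟩⟩, r.supp, by simp [LT.fam, supp_mem], inter_comm _ _⟩
        have n1 : L ∩ l.supp ⊆ u1.supp ∨ L ∩ l.supp ⊆ u2.supp := by
          simp only [LT.fam, mem_insert, mem_union] at m1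
          rcases m1 with e | e | e
          · rw [← hL'] at e
            exact absurd (mem_inter.1 (e.symm ▸ hx : x ∈ L ∩ l.supp)).2 hxl
          · exact Or.inl (fam_sub _ _ e).2
          · exact Or.inr (fam_sub _ _ e).2
        have n2 : L ∩ r.supp ⊆ u1.supp ∨ L ∩ r.supp ⊆ u2.supp := by
          simp only [LT.fam, mem_insert, mem_union] at m2
          rcases m2 with e | e | e
          · rw [← hL'] at e
            exact absurd (mem_inter.1 (e.symm ▸ hy : y ∈ L ∩ r.supp)).2 hyr
          · exact Or.inl (fam_sub _ _ e).2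
          · exact Or.inr (fam_sub _ _ e).2
        have cov : ∀ z ∈ L, z ∈ L ∩ l.supp ∨ z ∈ L ∩ r.supp := fun z hz =>
          (mem_union.1 (hs hz)).imp (fun e => mem_inter.2 ⟨hz, e⟩) (fun e => mem_inter.2 ⟨hz, e⟩)
        have k1 : ∀ z ∈ u1.supp, z ∈ L := fun z hz => mem_union_left _ hz
        have k2 : ∀ z ∈ u2.supp, z ∈ L := fun z hz => mem_union_right _ hz
        have hI' : ∀ B, B ∈ (LT.node u2 u1).fam ↔ I (.node l r) L B := fun B => by
          rw [fam_comm]; exact hI B
        have hc : L.card = u1.supp.card + u2.supp.card := card_union_of_disjoint v3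
        rcases n1 with n1 | n1 <;> rcases n2 with n2 | n2
        · obtain ⟨z, hz⟩ := supp_ne u2
          exact absurd hz (disjoint_left.1 v3 ((cov z (k2 z hz)).elim (@n1 z) (@n2 z)))
        · have e1 : u1.supp = L ∩ l.supp := Subset.antisymm (fun z hz =>
            (cov z (k1 z hz)).resolve_right fun e => disjoint_left.1 v3 hz (n2 e)) n1
          have e2 : u2.supp = L ∩ r.supp := Subset.antisymm (fun z hz =>
            (cov z (k2 z hz)).resolve_left fun e => disjoint_right.1 v3 hz (n1 e)) n2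
          exact ⟨_, _, hc.symm, b3, b4, _, ⟨good_part w3 v3 hI e1 v1 b1, rfl⟩, _,
            ⟨good_part w3.symm v3.symm (fun B => (hI' B).trans (I_comm _ _ _ _)) e2 v2 b2, rfl⟩, rfl⟩
        · have e1 : u2.supp = L ∩ l.supp := Subset.antisymm (fun z hz =>
            (cov z (k2 z hz)).resolve_right fun e => disjoint_right.1 v3 hz (n2 e)) n1
          have e2 : u1.supp = L ∩ r.supp := Subset.antisymm (fun z hz =>
            (cov z (k1 z hz)).resolve_left fun e => disjoint_left.1 v3 hz (n1 e)) n2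
          exact ⟨_, _, by omega, b4, b3, _, ⟨good_part w3 v3.symm hI' e1 v2 b2, rfl⟩, _,
            ⟨good_part w3.symm v3 (fun B => (hI B).trans (I_comm _ _ _ _)) e2 v1 b1, rfl⟩,
            union_comm _ _⟩
        · obtain ⟨z, hz⟩ := supp_ne u1
          exact absurd hz (disjoint_right.1 v3 ((cov z (k1 z hz)).elim (@n1 z) (@n2 z)))

lemma set_eq [Fintype β] (s : LT β) (t : LT α) (sw : s.WF) (sb : s.Bal) (ss : s.supp = univ)
    (tw : t.WF) :
    {L : Finset α | ∃ f : β → α, Function.Injective f ∧ Finset.univ.image f = L ∧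
      ∀ B : Finset β, B ∈ s.fam ↔ (B.Nonempty ∧ ∃ A ∈ t.fam, B.image f = A ∩ L)} =
    ↑(evk t (Fintype.card β)) := by
  ext L
  simp only [Set.mem_ofPred_eq, mem_coe, mem_evk t tw]
  constructor
  · rintro ⟨f, hf, rfl, h⟩
    refine ⟨⟨s.map f, map_wf hf s sw, map_bal hf s sb, by rw [map_supp, ss], fun C => ?_⟩,
      by rw [card_image_of_injective _ hf, card_univ]⟩
    rw [map_fam, mem_image]
    constructor
    · rintro ⟨B, hB, rfl⟩
      obtain ⟨h1, h2⟩ := (h B).1 hB
      exact ⟨h1.image f, h2⟩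
    · intro hC
      obtain ⟨B, -, rfl⟩ := subset_image_iff.1 (I_sub hC).2
      exact ⟨B, (h B).2 ⟨hC.1.of_image, hC.2⟩, rfl⟩
  · rintro ⟨⟨u, uw, ub, rfl, hI⟩, hc⟩
    obtain ⟨f, hf, e1, e2⟩ := iso_of_bal s u sw sb uw ub (by rw [ss, hc, card_univ])
    rw [ss] at hf e1
    have hf' : Function.Injective f := fun x y e => hf (by simp) (by simp) e
    refine ⟨f, hf', e1.symm, fun B => ?_⟩
    have := hI (B.image f)
    rw [e2, (image_injective hf').mem_finset_image] at this
    rw [this]
    exact and_congr_left fun _ => image_nonempty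

end Pool.Agent.H485Z.Even
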