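import Pool.Agent.H485Z.Even.Basic

set_option autoImplicit false

namespace Pool.Agent.H485Z.Even

lemma F_succ_rec (n : ℕ) : F (n + 1) = star (F (n / 2 + 1)) (F ((n + 1) / 2)) := by
  rw [F_rec (n + 1), show (n + 1 + 1) / 2 = n / 2 + 1 by omega]

lemma F_rec' (n : ℕ) : F n = star (F (n / 2)) (F ((n + 1) / 2)) := by
  rw [F_rec n, star_comm]

lemma P_1 (X Y : ℕ → ℕ) : P X Y 1 = X 1 * Y 0 + X 0 * Y 1 := P_odd X Y 0
lemma P_2 (X Y : ℕ → ℕ) : P X Y 2 = X 1 * Y 1 := P_even X Y 1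
lemma P_3 (X Y : ℕ → ℕ) : P X Y 3 = X 2 * Y 1 + X 1 * Y 2 := P_odd X Y 1

lemma F_1 (n : ℕ) : F n 1 = n := by
  induction n using Nat.strong_induction_on with
  | _ n ih =>
  obtain ⟨p, rfl | rfl⟩ := even_or_odd' n
  · rcases Nat.eq_zero_or_pos p with rfl | hp
    · simp [F_zero]
    rw [F_even, star, P_1, F_idx0, ih p (by omega)]; omega
  · rcases Nat.eq_zero_or_pos p with rfl | hp
    · simp [F_one]
    rw [F_odd, star, P_1, F_idx0, F_idx0, ih p (by omega), ih (p + 1) (by omega)]; omega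

lemma F_2 (n : ℕ) : 2 * F n 2 + n = n * n := by
  induction n using Nat.strong_induction_on with
  | _ n ih =>
  obtain ⟨p, rfl | rfl⟩ := even_or_odd' n
  · rcases Nat.eq_zero_or_pos p with rfl | hp
    · simp [F_zero]
    rw [F_even, star, P_2, F_1]
    have := ih p (by omega)
    nlinarith
  · rcases Nat.eq_zero_or_pos p with rfl | hp
    · simp [F_one]
    rw [F_odd, star, P_2, F_1, F_1]
    have := ih p (by omega)
    have := ih (p + 1) (by omega)
    nlinarith

lemma F_3 (n : ℕ) : 6 * F n 3 + 3 * (n * n) = n * n * n + 2 * n := by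
  induction n using Nat.strong_induction_on with
  | _ n ih =>
  obtain ⟨p, rfl | rfl⟩ := even_or_odd' n
  · rcases Nat.eq_zero_or_pos p with rfl | hp
    · simp [F_zero]
    rw [F_even, star, P_3, F_1]
    have h1 := ih p (by omega)
    have h2 := congrArg (· * p) (F_2 p)
    nlinarith
  · rcases Nat.eq_zero_or_pos p with rfl | hp
    · simp [F_one]
    rw [F_odd, star, P_3, F_1, F_1]
    have h1 := ih p (by omega)
    have h1' := ih (p + 1) (by omega)
    have h2 := congrArg (· * (p + 1)) (F_2 p)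
    have h3 := congrArg (· * p) (F_2 (p + 1))
    nlinarith

lemma wb {M : ℕ} (h : ∀ n, n < M → TP n) {n : ℕ} (hn : n ≤ M) (h1 : 1 ≤ n) (j : ℕ) :
    2 ^ j * F (n / 2 + 1) j ≤ 2 * F (n + 1) j := by
  have hd := double h (p := n / 2 + 1) (by omega) j
  obtain ⟨r, rfl | rfl⟩ := even_or_odd' n
  · rw [show 2 * r / 2 = r by omega] at *
    by_cases hj : r + 1 < j
    · rw [F_big hj]; simp
    have ha := avg h (n := 2 * r + 1) (by omega) j
    rw [show 2 * (r + 1) = 2 * r + 1 + 1 by ring] at hd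
    have hj' : 2 * j * F (2 * r + 1 + 1) j ≤ (2 * r + 1 + 1) * F (2 * r + 1 + 1) j :=
      Nat.mul_le_mul_right _ (by omega)
    have : (2 * r + 1 + 1) * F (2 * r + 1 + 1) j ≤ (2 * r + 1 + 1) * (2 * F (2 * r + 1) j) := by
      nlinarith
    exact hd.trans (Nat.le_of_mul_le_mul_left this (by omega))
  · rw [show (2 * r + 1) / 2 = r by omega] at *
    rw [show 2 * (r + 1) = 2 * r + 1 + 1 by ring] at hd
    omega

lemma scale {p A x x' i : ℕ} (h : p * x' + i * x ≤ p * x) (hx : x' ≤ x) (hA : 2 * p ≤ A) :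
    A * x' + 2 * i * x ≤ A * x := by
  obtain ⟨u, rfl⟩ := Nat.exists_eq_add_of_le hA
  have := Nat.mul_le_mul_left u hx
  nlinarith

lemma comb1 {A B C S S' Q Q' j : ℤ} (hB : 0 < B) (hBA : B ≤ A) (hBC : B ≤ C)
    (hQ : 0 ≤ Q) (hj : 0 ≤ j) (h1 : A * S' + j * S ≤ A * S) (h2 : B * Q' + j * Q ≤ B * Q)
    (h3 : S * (A - C) ≤ Q * (C - B)) : C * (S' + Q') + j * (S + Q) ≤ C * (S + Q) := by
  have hA : 0 < A := by omega
  have hC : 0 < C := by omega
  have hAB : 0 < A * B := by positivity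
  apply le_of_mul_le_mul_left _ hAB
  have e1 := mul_le_mul_of_nonneg_left h1 (show 0 ≤ B * C by positivity)
  have e2 := mul_le_mul_of_nonneg_left h2 (show 0 ≤ A * C by positivity)
  have e3 := mul_le_mul_of_nonneg_left h3 (show 0 ≤ B * j by positivity)
  have e4 : 0 ≤ (A - B) * (j * (Q * (C - B))) :=
    mul_nonneg (by omega) (mul_nonneg hj (mul_nonneg hQ (by omega)))
  nlinarith

lemma pow_bd (j : ℕ) (hj : 5 ≤ j) : 8 * j ≤ 3 * 2 ^ j := by
  induction j, hj using Nat.le_induction with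
  | base => norm_num
  | succ j hj ih => rw [pow_succ]; omega

/-- lower bound for the relative increment -/
lemma defic {M : ℕ} (h : ∀ n, n < M → TP n) (n : ℕ) : n ≤ M → ∀ j,
    (n + 1 + (2 * j - 6)) * F n j + j * F (n + 1) j ≤ (n + 1 + (2 * j - 6)) * F (n + 1) j := by
  induction n using Nat.strong_induction_on with
  | _ n ih =>
  intro hn j
  rcases Nat.eq_zero_or_pos n with rfl | hn1
  · simp only [F_zero, zero_add, F_one]
    split_ifs with hj
    · subst hj; simp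
    · simp
  by_cases hj : j ≤ 3
  · rw [show 2 * j - 6 = 0 by omega, add_zero]
    interval_cases j
    · simp [F_idx0]
    · rw [F_1, F_1]; nlinarith
    · have := F_2 n
      have := F_2 (n + 1)
      nlinarith
    · have h1 := congrArg (· * (n + 1)) (F_3 n)
      have h2 := congrArg (· * (n + 1)) (F_3 (n + 1))
      have h3 := F_3 (n + 1)
      nlinarith
  have hw := wb h hn hn1 j
  have IH := ih (n / 2) (by omega) (by omega)
  have mX : ∀ i, F (n / 2) i ≤ F (n / 2 + 1) i := F_succ_le _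
  have mY : ∀ i, F ((n + 1) / 2) i ≤ F (n / 2 + 1) i := F_mono (by omega)
  have tp := fun i => TP_all h (y := (n + 1) / 2) i (i + 1) (by omega) (n / 2 + 1) (by omega)
    (by omega)
  rw [F_succ_rec n] at hw ⊢
  rw [F_rec' n]
  generalize F (n / 2 + 1) = X at *
  generalize F ((n + 1) / 2) = Y at *
  generalize F (n / 2) = X' at *
  simp only [star] at hw ⊢
  have hS : (n + 2 + 2 * (2 * j - 6)) * (X' j + Y j) + j * (X j + Y j) ≤
      (n + 2 + 2 * (2 * j - 6)) * (X j + Y j) := by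
    have h1 := scale (IH j) (mX j) (A := n + 2 + 2 * (2 * j - 6)) (by omega)
    have h2 := Nat.mul_le_mul_left j (mY j)
    nlinarith
  have hP : (n + 2 + 2 * (2 * ((j + 1) / 2) - 6)) * P X' Y j + j * P X Y j ≤
      (n + 2 + 2 * (2 * ((j + 1) / 2) - 6)) * P X Y j := by
    obtain ⟨c, rfl | rfl⟩ := even_or_odd' j
    · rw [show (2 * c + 1) / 2 = c by omega, P_even, P_even]
      have h1 := scale (IH c) (mX c) (A := n + 2 + 2 * (2 * c - 6)) (by omega)
      have h2 := Nat.mul_le_mul_right (Y c) h1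
      nlinarith
    · rw [show (2 * c + 1 + 1) / 2 = c + 1 by omega, P_odd, P_odd]
      have h1 := scale (IH c) (mX c) (A := n + 2 + 2 * (2 * (c + 1) - 6)) (by omega)
      have h2 := Nat.mul_le_mul_right (Y (c + 1)) h1
      have h3 := scale (IH (c + 1)) (mX (c + 1)) (A := n + 2 + 2 * (2 * (c + 1) - 6)) (by omega)
      have h4 := Nat.mul_le_mul_right (Y c) h3
      have h5 := tp c
      nlinarith
  have hk : (X j + Y j : ℤ) * (((n + 2 + 2 * (2 * j - 6) : ℕ) : ℤ) - ((n + 1 + (2 * j - 6) : ℕ) : ℤ)) ≤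
      (P X Y j : ℤ) * (((n + 1 + (2 * j - 6) : ℕ) : ℤ) -
        ((n + 2 + 2 * (2 * ((j + 1) / 2) - 6) : ℕ) : ℤ)) := by
    have hY : (Y j : ℤ) ≤ X j := by exact_mod_cast mY j
    have hw' : (2 : ℤ) ^ j * X j ≤ 2 * (X j + Y j + P X Y j) := by exact_mod_cast hw
    have hX0 : (0 : ℤ) ≤ X j := by positivity
    have hY0 : (0 : ℤ) ≤ Y j := by positivity
    have hP0 : (0 : ℤ) ≤ P X Y j := by positivity
    by_cases h4 : j = 4
    · subst h4
      norm_num at hw' ⊢
      nlinarith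
    have hb : (8 * j : ℤ) ≤ 3 * 2 ^ j := by exact_mod_cast pow_bd j (by omega)
    have e1 : (((n + 2 + 2 * (2 * j - 6) : ℕ) : ℤ) - ((n + 1 + (2 * j - 6) : ℕ) : ℤ)) =
        2 * j - 5 := by omega
    have e2 : (3 : ℤ) ≤ ((n + 1 + (2 * j - 6) : ℕ) : ℤ) -
        ((n + 2 + 2 * (2 * ((j + 1) / 2) - 6) : ℕ) : ℤ) := by omega
    rw [e1]
    refine le_trans ?_ (mul_le_mul_of_nonneg_left e2 hP0)
    have hj5 : (5 : ℤ) ≤ j := by omega
    generalize (2 : ℤ) ^ j = t at *
    have ht : 0 < t - 4 := by omega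
    apply le_of_mul_le_mul_left _ ht
    have a1 : (t - 4) * (X j + Y j : ℤ) ≤ 4 * P X Y j := by nlinarith
    have a2 := mul_le_mul_of_nonneg_right a1 (show (0 : ℤ) ≤ 2 * j - 5 by omega)
    have a3 := mul_le_mul_of_nonneg_right (show 4 * (2 * j - 5 : ℤ) ≤ 3 * (t - 4) by omega) hP0
    nlinarith
  have := comb1 (A := ((n + 2 + 2 * (2 * j - 6) : ℕ) : ℤ))
    (B := ((n + 2 + 2 * (2 * ((j + 1) / 2) - 6) : ℕ) : ℤ)) (C := ((n + 1 + (2 * j - 6) : ℕ) : ℤ))
    (S := X j + Y j) (S' := X' j + Y j) (Q := P X Y j) (Q' := P X' Y j) (j := j)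
    (by omega) (by omega) (by omega) (by positivity) (by positivity)
    (by exact_mod_cast hS) (by exact_mod_cast hP) hk
  exact_mod_cast this

end Pool.Agent.H485Z.Even
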