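import Pool.Agent.H485Z.Even.Table

set_option autoImplicit false

namespace Pool.Agent.H485Z.Even

lemma Qj.tp {n j : ℕ} (h : Qj n j) : F (n + 1) j * F n (j + 1) ≤ F (n + 1) (j + 1) * F n j := by
  unfold Qj at h
  apply Nat.le_of_mul_le_mul_left _ (Nat.succ_pos ((n - 1) * (j + 1)))
  exact h.trans (Nat.mul_le_mul_right _ (Nat.le_succ _))

lemma beta {X X' Y : ℕ → ℕ} {j L : ℕ} (h1 : X (j / 2) * Y (j / 2 + 1) ≤ X (j / 2 + 1) * Y (j / 2))
    (h2 : X' (j / 2 + 1) * Y (j / 2) ≤ X' (j / 2) * Y (j / 2 + 1))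
    (h3 : (L + 2) * (X (j / 2) * X' (j / 2 + 1)) ≤ L * (X (j / 2 + 1) * X' (j / 2))) :
    (L + 2) * (P X Y j * P X' Y (j + 1)) ≤ (L + 1) * (P X Y (j + 1) * P X' Y j) := by
  obtain ⟨c, rfl | rfl⟩ := even_or_odd' j
  · rw [show 2 * c / 2 = c by omega] at *
    simp only [P_even, P_odd]
    have a1 := Nat.mul_le_mul_right (Y c * Y c) h3
    have a2 := Nat.mul_le_mul_right (X' c * Y c) h1
    nlinarith
  · rw [show (2 * c + 1) / 2 = c by omega] at *
    rw [show 2 * c + 1 + 1 = 2 * (c + 1) by ring]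
    simp only [P_even, P_odd]
    have a1 := Nat.mul_le_mul_right (Y (c + 1) * Y (c + 1)) h3
    have a2 := Nat.mul_le_mul_right (X (c + 1) * Y (c + 1)) h2
    nlinarith

lemma comb2 {G0 G1 G0' G1' P0 P1 P0' P1' u v e1 e2 : ℝ} (hG0 : 0 ≤ G0) (hG1 : 0 ≤ G1)
    (hP0 : 0 < P0) (hP1 : 0 < P1) (hP1' : 0 ≤ P1') (hu : 0 ≤ u) (he : e1 ≤ 1)
    (h1 : (1 - e1) * (G0 * P0') ≤ G0' * P0) (h2 : G1' * P1 ≤ (1 + e2) * (G1 * P1'))
    (h3 : v * (P0 * P1') ≤ P1 * P0') (h4 : u * (1 + e2) ≤ (1 - e1) * v) :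
    u * (G0 * G1') ≤ G1 * G0' := by
  have hp : 0 < P0 * P1 := by positivity
  apply le_of_mul_le_mul_left _ hp
  have he' : 0 ≤ 1 - e1 := by linarith
  calc P0 * P1 * (u * (G0 * G1')) = u * G0 * P0 * (G1' * P1) := by ring
    _ ≤ u * G0 * P0 * ((1 + e2) * (G1 * P1')) := mul_le_mul_of_nonneg_left h2 (by positivity)
    _ = (u * (1 + e2)) * (G0 * G1 * (P0 * P1')) := by ring
    _ ≤ ((1 - e1) * v) * (G0 * G1 * (P0 * P1')) := mul_le_mul_of_nonneg_right h4 (by positivity)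
    _ = (1 - e1) * G0 * G1 * (v * (P0 * P1')) := by ring
    _ ≤ (1 - e1) * G0 * G1 * (P1 * P0') := mul_le_mul_of_nonneg_left h3 (by positivity)
    _ = G1 * P1 * ((1 - e1) * (G0 * P0')) := by ring
    _ ≤ G1 * P1 * (G0' * P0) := mul_le_mul_of_nonneg_left h1 (by positivity)
    _ = _ := by ring

lemma pow_bd2 (j : ℕ) (hj : 12 ≤ j) : 16 * ((j + 1) * (j + 1) * (j + 2)) ≤ j * 2 ^ j := by
  induction j, hj using Nat.le_induction with
  | base => norm_num
  | succ j hj ih =>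
    rw [pow_succ]
    have h1 : j * 2 ^ j ≤ (j + 1) * 2 ^ j := Nat.mul_le_mul_right _ (by omega)
    have h2 : (j + 1 + 1) * (j + 1 + 1) * (j + 1 + 2) ≤ 2 * ((j + 1) * (j + 1) * (j + 2)) := by
      obtain ⟨k, rfl⟩ : ∃ k, j = k + 12 := ⟨j - 12, by omega⟩
      nlinarith [Nat.zero_le (k * k * k), Nat.zero_le (k * k)]
    nlinarith

lemma num4 {m j c t : ℝ} (hm : 1 ≤ m) (hj : 1 ≤ j) (hc0 : 0 ≤ c) (hc : 2 * c ≤ j) (ht : 0 < t)
    (hb : 16 * ((j + 1) * (j + 1) * (j + 2)) ≤ j * t) :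
    (1 + 1 / (m * (j + 1))) * (1 + 4 * (j + 2) / (t * m)) ≤
      (1 - 4 * j / (t * m)) * (1 + 1 / (m * (c + 1))) := by
  have hm0 : 0 < m := by linarith
  have k1 : 1 / (m * (j + 1)) ≤ 1 := by
    rw [div_le_one (by positivity)]; nlinarith
  have k2 : 1 / (m * (c + 1)) ≤ 1 := by
    rw [div_le_one (by positivity)]; nlinarith
  have k3 : 2 / (m * (j + 2)) ≤ 1 / (m * (c + 1)) := by
    rw [div_le_div_iff₀ (by positivity) (by positivity)]; nlinarith
  have k4 : 1 / (m * (j + 1)) + 2 * (4 * (j + 2) / (t * m)) + 2 * (4 * j / (t * m)) ≤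
      2 / (m * (j + 2)) := by
    have : 2 / (m * (j + 2)) - (1 / (m * (j + 1)) + 2 * (4 * (j + 2) / (t * m)) +
        2 * (4 * j / (t * m))) =
        (j * t - 16 * ((j + 1) * (j + 1) * (j + 2))) / (m * t * (j + 1) * (j + 2)) := by
      field_simp; ring
    have h2 : 0 ≤ (j * t - 16 * ((j + 1) * (j + 1) * (j + 2))) / (m * t * (j + 1) * (j + 2)) :=
      div_nonneg (by linarith) (by positivity)
    linarith
  have p1 : 0 ≤ 4 * (j + 2) / (t * m) := by positivity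
  have p2 : 0 ≤ 4 * j / (t * m) := by positivity
  have q1 := mul_le_mul_of_nonneg_right k1 p1
  have q2 := mul_le_mul_of_nonneg_right k2 p2
  nlinarith

lemma P_avg {X X' Y : ℕ → ℕ} {p : ℕ} (h : ∀ k, p * X k ≤ p * X' k + k * X k) (i : ℕ) :
    p * P X Y i ≤ p * P X' Y i + ((i + 1) / 2) * P X Y i := by
  obtain ⟨c, rfl | rfl⟩ := even_or_odd' i
  · rw [show (2 * c + 1) / 2 = c by omega, P_even, P_even]
    have := Nat.mul_le_mul_right (Y c) (h c)
    nlinarith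
  · rw [show (2 * c + 1 + 1) / 2 = c + 1 by omega, P_odd, P_odd]
    have h1 := Nat.mul_le_mul_right (Y (c + 1)) (h c)
    have h2 := Nat.mul_le_mul_right (Y c) (h (c + 1))
    nlinarith [Nat.zero_le (X c * Y (c + 1))]

lemma P_pos {n j : ℕ} (h2 : 2 ≤ j) (hj : j ≤ n + 1) : 0 < P (F (n / 2 + 1)) (F ((n + 1) / 2)) j := by
  obtain ⟨c, rfl | rfl⟩ := even_or_odd' j
  · rw [P_even]
    exact Nat.mul_pos (F_pos (by omega) (by omega)) (F_pos (by omega) (by omega))
  · rw [P_odd]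
    exact Nat.add_pos_left (Nat.mul_pos (F_pos (by omega) (by omega)) (F_pos (by omega) (by omega))) _

lemma bound1 {x x' y Q Q' j t m p : ℝ} (hx : 0 ≤ x) (hxx : x' ≤ x) (hx' : 0 ≤ x') (hy : 0 ≤ y)
    (hQ' : 0 ≤ Q')
    (hQ : Q' ≤ Q) (ht : 0 < t) (hm : 0 < m) (hj : 0 ≤ j) (hmp : m ≤ 2 * p)
    (ha : p * x ≤ p * x' + j * x) (hw : t * x ≤ 2 * (x + y + Q)) :
    (1 - 4 * j / (t * m)) * ((x + y + Q) * Q') ≤ (x' + y + Q') * Q := by
  have h1 : x - x' ≤ 4 * j / (t * m) * (x + y + Q) := by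
    rw [div_mul_eq_mul_div, le_div_iff₀ (by positivity)]
    have a1 := mul_le_mul_of_nonneg_right hmp (show 0 ≤ x - x' by linarith)
    have a2 : m * (x - x') ≤ 2 * (j * x) := by linarith
    have a3 := mul_le_mul_of_nonneg_left a2 ht.le
    have a4 := mul_le_mul_of_nonneg_left hw hj
    nlinarith
  have h2 := mul_le_mul_of_nonneg_right h1 hQ'
  have h3 := mul_le_mul_of_nonneg_left hQ (show 0 ≤ x' + y by linarith)
  nlinarith

lemma bound2 {x x' y Q Q' j t m : ℝ} (hx : 0 ≤ x) (hxx : x' ≤ x) (hyx : y ≤ x) (hy : 0 ≤ y)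
    (hQ' : 0 ≤ Q') (hQ : Q' ≤ Q) (ht : 0 < t) (hm : 0 < m)
    (ha : x * (m * (Q - Q')) ≤ x * (2 * (j + 2) * Q')) (hj : 0 ≤ j)
    (hw : t * 2 * x ≤ 2 * (x + y + Q)) :
    (x' + y + Q') * Q ≤ (1 + 4 * (j + 2) / (t * m)) * ((x + y + Q) * Q') := by
  have h1 : 2 * x * (Q - Q') ≤ 4 * (j + 2) / (t * m) * ((x + y + Q) * Q') := by
    rw [div_mul_eq_mul_div, le_div_iff₀ (by positivity)]
    have a3 := mul_le_mul_of_nonneg_left ha ht.le
    have a4 := mul_le_mul_of_nonneg_left hw (show 0 ≤ (j + 2) * Q' by positivity)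
    nlinarith
  have h2 := mul_le_mul_of_nonneg_right hxx (show 0 ≤ Q by linarith)
  have h3 := mul_le_mul_of_nonneg_right hyx (show 0 ≤ Q - Q' by linarith)
  nlinarith

lemma Q_big {n j : ℕ} (h : ∀ k, k < n → ∀ i, Qj k i) (hj : 12 ≤ j) : Qj n j := by
  by_cases hb : n < j + 1
  · simp [Qj, F_big hb]
  have H : ∀ k, k < n → TP k := fun k hk i => (h k hk i).tp
  have hw0 := wb H le_rfl (by omega) j
  have hw1 := wb H le_rfl (by omega) (j + 1)
  have IH := h (n / 2) (by omega) (j / 2)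
  have mX : ∀ i, F (n / 2) i ≤ F (n / 2 + 1) i := F_succ_le _
  have mY : ∀ i, F ((n + 1) / 2) i ≤ F (n / 2 + 1) i := F_mono (by omega)
  have tp1 := TP_all H (y := (n + 1) / 2) (j / 2) (j / 2 + 1) (by omega) (n / 2 + 1) (by omega)
    (by omega)
  have tp2 := TP_all H (y := n / 2) (j / 2) (j / 2 + 1) (by omega) ((n + 1) / 2) (by omega)
    (by omega)
  have av := avg H (n := n / 2) (by omega)
  have p0 := P_pos (n := n) (j := j) (by omega) (by omega)
  have p1 := P_pos (n := n) (j := j + 1) (by omega) (by omega)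
  have xb : n / 2 + 1 < j + 1 → F (n / 2 + 1) (j + 1) = 0 := F_big
  unfold Qj at IH ⊢
  rw [F_succ_rec n] at hw0 hw1 ⊢
  rw [F_rec' n]
  generalize F (n / 2 + 1) = X at *
  generalize F ((n + 1) / 2) = Y at *
  generalize F (n / 2) = X' at *
  obtain ⟨m, rfl⟩ : ∃ m, n = m + 1 := ⟨n - 1, by omega⟩
  rw [Nat.add_sub_cancel]
  obtain ⟨L, hL⟩ : ∃ L, m * (j / 2 + 1) = L + 1 :=
    ⟨m * (j / 2 + 1) - 1, by have : 0 < m * (j / 2 + 1) := Nat.mul_pos (by omega) (by omega); omega⟩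
  have hbeta := beta (X := X) (X' := X') (Y := Y) (j := j) (L := L) tp1 (by nlinarith) (by
    obtain ⟨r, hr⟩ : ∃ r, (m + 1) / 2 = r + 1 := ⟨(m + 1) / 2 - 1, by omega⟩
    rw [hr, Nat.add_sub_cancel] at IH
    have h1 : (2 * r + 1) * (j / 2 + 1) ≤ m * (j / 2 + 1) := Nat.mul_le_mul_right _ (by omega)
    obtain ⟨u, hu⟩ : ∃ u, L = 2 * (r * (j / 2 + 1)) + u := ⟨L - 2 * (r * (j / 2 + 1)), by
      have : (2 * r + 1) * (j / 2 + 1) = 2 * (r * (j / 2 + 1)) + (j / 2 + 1) := by ring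
      omega⟩
    have h2 : X (j / 2) * X' (j / 2 + 1) ≤ X (j / 2 + 1) * X' (j / 2) := by
      apply Nat.le_of_mul_le_mul_left _ (Nat.succ_pos (r * (j / 2 + 1)))
      exact IH.trans (Nat.mul_le_mul_right _ (Nat.le_succ _))
    have h3 := Nat.mul_le_mul_left u h2
    rw [hu]
    nlinarith)
  rw [← hL] at hbeta
  have hm : (1 : ℝ) ≤ m := by exact_mod_cast (show 1 ≤ m by omega)
  have hj' : (12 : ℝ) ≤ j := by exact_mod_cast hj
  have ht : (0 : ℝ) < 2 ^ j := by positivity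
  have hbd : (16 : ℝ) * ((j + 1) * (j + 1) * (j + 2)) ≤ j * 2 ^ j := by
    exact_mod_cast pow_bd2 j hj
  have mP : ∀ i, P X' Y i ≤ P X Y i := P_mono mX (fun _ => le_rfl)
  simp only [star] at hw0 hw1 ⊢
  have key := comb2 (G0 := X j + Y j + P X Y j) (G1 := X (j + 1) + Y (j + 1) + P X Y (j + 1))
    (G0' := X' j + Y j + P X' Y j) (G1' := X' (j + 1) + Y (j + 1) + P X' Y (j + 1))
    (P0 := P X Y j) (P1 := P X Y (j + 1)) (P0' := P X' Y j) (P1' := P X' Y (j + 1))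
    (u := 1 + 1 / (m * (j + 1))) (v := 1 + 1 / (m * ((j / 2 : ℕ) + 1)))
    (e1 := 4 * j / (2 ^ j * m)) (e2 := 4 * (j + 2) / (2 ^ j * m))
    (by positivity) (by positivity) (by exact_mod_cast p0) (by exact_mod_cast p1)
    (by positivity) (by positivity)
    (by
      rw [div_le_one (by positivity)]
      have a1 : (j : ℝ) * 4 ≤ j * 2 ^ j / j := by
        rw [le_div_iff₀ (by linarith)]; nlinarith
      rw [mul_div_cancel_left₀ _ (by linarith)] at a1
      nlinarith)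
    (bound1 (p := (((m + 1) / 2 + 1 : ℕ) : ℝ)) (by positivity) (by exact_mod_cast mX j)
      (by positivity) (by positivity) (by positivity) (by exact_mod_cast mP j) ht (by linarith)
      (by positivity) (by exact_mod_cast (show m ≤ 2 * ((m + 1) / 2 + 1) by omega))
      (by exact_mod_cast av j) (by exact_mod_cast hw0))
    (bound2 (by positivity) (by exact_mod_cast mX (j + 1)) (by exact_mod_cast mY (j + 1))
      (by positivity) (by positivity) (by exact_mod_cast mP (j + 1)) ht (by linarith)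
      (by
        by_cases hx : (m + 1) / 2 + 1 < j + 1
        · rw [xb hx]; simp
        apply mul_le_mul_of_nonneg_left _ (by positivity)
        have a1 := P_avg (Y := Y) av (j + 1)
        obtain ⟨d, hd⟩ := Nat.exists_eq_add_of_le (mP (j + 1))
        obtain ⟨g, hg⟩ : ∃ g, (m + 1) / 2 + 1 = (j + 1 + 1) / 2 + g :=
          ⟨(m + 1) / 2 + 1 - (j + 1 + 1) / 2, by omega⟩
        rw [hd, hg] at a1
        have a2 : g * d ≤ (j + 1 + 1) / 2 * P X' Y (j + 1) := by nlinarith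
        have a3 : m * d ≤ 4 * g * d := Nat.mul_le_mul_right _ (by omega)
        have a4 : 2 * ((j + 1 + 1) / 2) * P X' Y (j + 1) ≤ (j + 2) * P X' Y (j + 1) :=
          Nat.mul_le_mul_right _ (by omega)
        have a5 : m * d ≤ 2 * (j + 2) * P X' Y (j + 1) := by nlinarith
        rw [hd]
        push_cast
        rw [add_sub_cancel_left]
        exact_mod_cast a5)
      (by positivity) (by rw [← pow_succ]; exact_mod_cast hw1))
    (by
      have a1 : ((m * ((j / 2 : ℕ) + 1) : ℝ) + 1) * (P X Y j * P X' Y (j + 1)) ≤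
          (m * ((j / 2 : ℕ) + 1)) * (P X Y (j + 1) * P X' Y j) := by
        rw [show L + 2 = m * (j / 2 + 1) + 1 by omega] at hbeta
        exact_mod_cast hbeta
      have hp : (0 : ℝ) < m * ((j / 2 : ℕ) + 1) := by positivity
      rw [one_add_div hp.ne', div_mul_eq_mul_div, div_le_iff₀ hp]
      linarith)
    (num4 hm (by linarith) (by positivity)
      (by exact_mod_cast (show 2 * (j / 2) ≤ j by omega)) ht hbd)
  have hp : (0 : ℝ) < m * (j + 1) := by positivity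
  rw [one_add_div hp.ne', div_mul_eq_mul_div, div_le_iff₀ hp, mul_comm _ ((m : ℝ) * (j + 1))] at key
  exact_mod_cast key

theorem Q_all (n : ℕ) : ∀ j, Qj n j := by
  induction n using Nat.strong_induction_on with
  | _ n ih =>
  intro j
  by_cases hj : j < 12
  · by_cases hn : n < 220
    · exact Q_small hn hj
    · exact Q_mid (M := n) (fun k hk i => (ih k hk i).tp) le_rfl (by omega) hj
  · exact Q_big ih (by omega)

theorem cnt_le_F (T : BT) (j : ℕ) : T.cnt j ≤ F T.size j :=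
  cnt_le (M := T.size) (fun k _ i => (Q_all k i).tp) T (by omega) j

end Pool.Agent.H485Z.Even
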