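import Pool.Agent.H485Z.Even.Defic

set_option autoImplicit false

namespace Pool.Agent.H485Z.Even

/-- quantitative total positivity -/
def Qj (n j : ℕ) : Prop :=
  ((n - 1) * (j + 1) + 1) * (F (n + 1) j * F n (j + 1)) ≤
    ((n - 1) * (j + 1)) * (F (n + 1) (j + 1) * F n j)

def starL (X Y : List ℕ) : List ℕ :=
  (List.range 13).map (fun j => star (fun i => X.getD i 0) (fun i => Y.getD i 0) j)

def Rep (X : List ℕ) (f : ℕ → ℕ) : Prop := ∀ j, j < 13 → X.getD j 0 = f j

lemma Rep.star {X Y : List ℕ} {f g : ℕ → ℕ} (hX : Rep X f) (hY : Rep Y g) :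
    Rep (starL X Y) (star f g) := by
  intro j hj
  unfold starL
  rw [List.getD_eq_getElem _ _ (by simpa using hj)]
  simp only [List.getElem_map, List.getElem_range, Even.star]
  rw [hX j hj, hY j hj]
  obtain ⟨c, rfl | rfl⟩ := even_or_odd' j
  · simp only [P_even]; rw [hX c (by omega), hY c (by omega)]
  · simp only [P_odd]
    rw [hX c (by omega), hY c (by omega), hX (c + 1) (by omega), hY (c + 1) (by omega)]

def nxt (n : ℕ) (p : List ℕ × List ℕ) : List ℕ × List ℕ :=
  if n % 2 = 0 then (starL p.1 p.1, starL p.2 p.1) else (starL p.2 p.1, starL p.2 p.2)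

def pr : ℕ → ℕ → List ℕ × List ℕ
  | 0, _ => ([], [0, 1])
  | f + 1, n => nxt n (pr f (n / 2))

lemma pr_rep (f : ℕ) : ∀ n, n < 2 ^ f → Rep (pr f n).1 (F n) ∧ Rep (pr f n).2 (F (n + 1)) := by
  induction f with
  | zero =>
    intro n hn
    obtain rfl : n = 0 := by simpa using hn
    refine ⟨fun j _ => by simp [pr, F_zero], fun j hj => ?_⟩
    rw [zero_add, F_one]
    match j with
    | 0 => rfl
    | 1 => rfl
    | j + 2 => simp [pr]
  | succ f ih =>
    intro n hn
    obtain ⟨h1, h2⟩ := ih (n / 2) (by rw [pow_succ] at hn; omega)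
    obtain ⟨r, rfl | rfl⟩ := even_or_odd' n
    · rw [show 2 * r / 2 = r by omega] at *
      simp only [pr, nxt, show 2 * r / 2 = r by omega, show 2 * r % 2 = 0 by omega, if_true]
      rw [F_even, F_odd]
      exact ⟨h1.star h1, h2.star h1⟩
    · rw [show (2 * r + 1) / 2 = r by omega] at *
      simp only [pr, nxt, show (2 * r + 1) / 2 = r by omega, show (2 * r + 1) % 2 = 1 by omega,
        one_ne_zero, if_false]
      rw [show 2 * r + 1 + 1 = 2 * (r + 1) by ring, F_even, F_odd]
      exact ⟨h2.star h1, h2.star h2⟩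

def chk1 (n : ℕ) (p : List ℕ × List ℕ) : Bool :=
  (List.range 12).all (fun j => Nat.ble
    (((n - 1) * (j + 1) + 1) * (p.2.getD j 0 * p.1.getD (j + 1) 0))
    (((n - 1) * (j + 1)) * (p.2.getD (j + 1) 0 * p.1.getD j 0)))

lemma chk_all : (List.range 220).all (fun n => chk1 n (pr 8 n)) = true := by decide +kernel

lemma Q_small {n j : ℕ} (hn : n < 220) (hj : j < 12) : Qj n j := by
  have h := List.all_eq_true.1 chk_all n (List.mem_range.2 hn)
  have h2 := List.all_eq_true.1 h j (List.mem_range.2 hj)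
  obtain ⟨r1, r2⟩ := pr_rep 8 n (by omega)
  rw [r1 j (by omega), r1 (j + 1) (by omega), r2 j (by omega), r2 (j + 1) (by omega)] at h2
  exact Nat.le_of_ble_eq_true h2

lemma Q_mid {M : ℕ} (h : ∀ n, n < M → TP n) {n j : ℕ} (hM : n ≤ M) (hn : 220 ≤ n) (hj : j < 12) :
    Qj n j := by
  rcases Nat.eq_zero_or_pos j with rfl | hj0
  · simp [Qj, F_idx0]
  have h1 := avg h (n := n) (by omega) j
  have h2 := defic h n hM (j + 1)
  have h3 := F_succ_le n (j + 1)
  unfold Qj
  obtain ⟨m, rfl⟩ : ∃ m, n = m + 220 := ⟨n - 220, by omega⟩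
  rw [show m + 220 - 1 = m + 219 by omega]
  generalize F (m + 220 + 1) j = a at *
  generalize F (m + 220) j = a' at *
  generalize F (m + 220 + 1) (j + 1) = b at *
  generalize F (m + 220) (j + 1) = b' at *
  have h4 : (m + 239) * b' + (j + 1) * b ≤ (m + 239) * b := by
    obtain ⟨u, hu⟩ : ∃ u, m + 239 = m + 220 + 1 + (2 * (j + 1) - 6) + u :=
      ⟨18 - (2 * (j + 1) - 6), by omega⟩
    rw [hu]
    have := Nat.mul_le_mul_left u h3
    nlinarith
  obtain ⟨v, hv⟩ : ∃ v, m + 221 = j + v := ⟨m + 221 - j, by omega⟩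
  have h5 : v * a ≤ (m + 221) * a' := by
    rw [show m + 220 + 1 = j + v by omega] at h1
    rw [hv]; nlinarith
  have h6 : (m + 239) * b' ≤ (v + 17) * b := by
    have : (m + 239) * b = (j + 1) * b + (v + 17) * b := by
      rw [show m + 239 = (j + 1) + (v + 17) by omega]; ring
    omega
  have h7 : ((m + 219) * (j + 1) + 1) * ((m + 221) * (v + 17)) ≤
      ((m + 219) * (j + 1)) * (v * (m + 239)) := by
    obtain rfl : v = m + 221 - j := by omega
    clear h1 h2 h3 h4 h5 h6 hv h hM hn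
    interval_cases j <;> simp only [show ∀ a b c : ℕ, c ≤ b → a + b - c = a + (b - c) from
      fun a b c h => Nat.add_sub_assoc h a, Nat.reduceLeDiff, Nat.reduceSub] <;> nlinarith
  have h8 := Nat.mul_le_mul h5 h6
  have hp : 0 < v * (m + 239) := Nat.mul_pos (by omega) (by omega)
  apply Nat.le_of_mul_le_mul_left _ hp
  calc v * (m + 239) * (((m + 219) * (j + 1) + 1) * (a * b'))
      = ((m + 219) * (j + 1) + 1) * (v * a * ((m + 239) * b')) := by ring
    _ ≤ ((m + 219) * (j + 1) + 1) * ((m + 221) * a' * ((v + 17) * b)) := Nat.mul_le_mul_left _ h8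
    _ = ((m + 219) * (j + 1) + 1) * ((m + 221) * (v + 17)) * (b * a') := by ring
    _ ≤ ((m + 219) * (j + 1)) * (v * (m + 239)) * (b * a') := Nat.mul_le_mul_right _ h7
    _ = _ := by ring

end Pool.Agent.H485Z.Even
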